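import Pool.Agent.H313.GE.Avm

/-!
# Divisors on the twists of the abelian coverings of a surface

Let `k` be a field with `q` elements, `Z` the smooth projective surface over `k` with the equations
`G i = 0`, `ℓ` a prime, `F i` (`i < m`) forms of degrees divisible by `N_i = ℓ ^ (a i)`, such that their
divisors `D i` on `Z` are smooth and ample with normal crossings, and `χ i` characters of the
multiplicative group of `k` of the orders `N_i` (which divide `q - 1`). For an extension `k'` of `k` of
degree `r` and `v = (v i)`, `v i` not zero in `k'`, let `X_v` be the covering `w_i ^ (N_i) = v_i F_i`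
(`i < m`) of `Z` over `k'`, a smooth projective surface.

For `j = (j i)`, `0 ≤ j i < N_i`, let `I(j)` be the set of the `i` with `j i ≠ 0`, and `L_j` the tensor
product over `i ∈ I(j)` of the Kummer sheaves of the characters `χ i ^ (j i)` for `F i`, on the open
subset `U_j` of `Z` where these `F i` are not zero. Then `H ^ 2 (X_1)` is the direct sum of `H ^ 2 (Z)`
and of the spaces `H ^ 2_c (U_j, L_j)` for `I(j)` not empty; the other groups `H ^ d_c (U_j, L_j)` are
zero, and `V j = det (1 - T Frob)` on `H ^ 2_c (U_j, L_j)` is the product `kummerProduct`. If the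
reciprocal zeros of `V j` are the `α`, the eigenvalues of the Frobenius of `k'` on the corresponding part
of `H ^ 2 (X_v)` are the `χ_j(N v) α ^ r`, where `N` is the norm from `k'` to `k` and `χ_j(N v)` the
product of the `χ i ^ (j i) (N (v i))`.

The number `newClasses` of the pairs of a `j` with `I(j)` not empty and an `α` such that this eigenvalue
is `q ^ r` is the difference of the multiplicities of `q ^ r` as an eigenvalue of Frobenius for `X_v` and
for `Z` over `k'`: the dimension which is predicted by the conjecture of Tate for the divisors of `X_v`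
over `k'` is the one for `Z` plus this number. If it is zero, the conjecture of Tate for divisors holds
for `X_v` over `k'` if and only if it holds for `Z` over `k'`. The difference of the ranks of the
Néron-Severi groups is always bounded by this number.
-/

set_option autoImplicit false
set_option linter.all false
set_option maxHeartbeats 4000000

open Polynomial NumberField Module

namespace Pool.Agent.Results.MP_8ac872_ag.AbelianCoveringsTwists

open Pool.Agent.H313.GE.Pts

/-- The set of the `i` with `j i ≠ 0`. -/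
def supp {m : ℕ} {N : Fin m → ℕ} (j : ∀ i, Fin (N i)) : Finset (Fin m) :=
  Finset.univ.filter fun i => (j i : ℕ) ≠ 0

open Classical in
/-- The set of the `j` with `I(j)` not empty. -/
noncomputable def nonzero {m : ℕ} (N : Fin m → ℕ) : Finset (∀ i, Fin (N i)) :=
  Finset.univ.filter fun j => (supp j).Nonempty

open Classical in
/-- The number of the pairs of a `j` with `I(j)` not empty and a zero `x = 1 / α` of `V j`, with
multiplicities, such that `(q x) ^ r = χ_j(N v)`, for `v` in the group of the tuples of units of the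
extension `k'` of degree `r`. -/
noncomputable def newClasses {k K : Type} [Field k] [Field K] [NumberField K] {m : ℕ}
    {N : Fin m → ℕ} (χ : Fin m → MulChar k (𝓞 K)) (V : (∀ i, Fin (N i)) → (𝓞 K)[X])
    {k' : Type} [Field k'] [Algebra k k'] (v : Fin m → k'ˣ) : ℕ :=
  ∑ j ∈ nonzero N, Multiset.card ((((V j).map (algebraMap (𝓞 K) K)).map
    (algebraMap K (AlgebraicClosure K))).roots.filter fun x =>
      ((Nat.card k : AlgebraicClosure K) * x) ^ finrank k k' =
        algebraMap K (AlgebraicClosure K) (algebraMap (𝓞 K) K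
          (∏ i, (χ i ^ (j i : ℕ)) (Algebra.norm k (v i : k')))))

/-- **Divisors on the twists of the abelian coverings of a surface.**

For every nonempty set `I` of indices `i` let `L₁ / L₂` be the inverse of the zeta function of the open
set of `Z` where the `F i`, `i ∈ I`, are not zero, let `L₁` be modulo `ℓ` the product of `L₂`, of the
cyclotomic polynomials `Φ_n` for `n` in a multiset `t I`, and of a polynomial which is not divisible
by any `Φ_n` with `n` prime to `ℓ`, and let `μ I` be the sum of the `φ(n)`, `n` in `t I`. Then for all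
finite extensions `k'` of `k`, with `q'` elements:

1. `newClasses v` is at most the sum of the `μ (I(j))` over all the `j` with `I(j)` not empty, for every
tuple `v`. This bounds the rank of the Néron-Severi group of `X_v` over all finite fields, and over the
algebraic closure. If `μ I = 0` for all `I`, the conjecture of Tate for divisors holds for all the `X_v`
over all extensions, if it holds for `Z`.

2. The average of `newClasses v` over the `(q' - 1) ^ m` tuples `v` is at most the sum of the
`μ (I(j)) / ord(j)`, where `ord(j)` is the order of the tuple of the characters `χ i ^ (j i)`. In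
particular if this sum is smaller than one, the proportion of the tuples `v` such that the conjecture of
Tate for divisors holds for `X_v` over `k'` is at least one minus this sum, for all `k'`, if it holds for
`Z` over all `k'`. (For `m = 1` the sum is `a (1 - 1 / ℓ) μ`; if all `a i = 1`, it is the sum of the
`(ℓ - 1) ^ |I| μ I / ℓ`.) -/
theorem result (ℓ : ℕ) (hℓ : ℓ.Prime) (k : Type) [Field k] [Finite k]
    (K : Type) [Field K] [NumberField K] [IsGalois ℚ K] (M s m : ℕ)
    (G : Fin s → MvPolynomial (Fin (M + 1)) k) (F : Fin m → MvPolynomial (Fin (M + 1)) k)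
    (a : Fin m → ℕ) (χ : Fin m → MulChar k (𝓞 K)) (hχ : ∀ i, orderOf (χ i) = ℓ ^ a i)
    (V : (∀ i, Fin (ℓ ^ a i)) → (𝓞 K)[X])
    (hV : ∀ j, (supp j).Nonempty →
      kummerProduct G F (fun i => χ i ^ (j i : ℕ)) (supp j) = (V j : PowerSeries (𝓞 K)))
    (L₁ L₂ : Finset (Fin m) → ℤ[X]) (t : Finset (Fin m) → Multiset ℕ)
    (H : Finset (Fin m) → (ZMod ℓ)[X])
    (hL : ∀ I : Finset (Fin m), I.Nonempty → (L₂ I).coeff 0 = 1 ∧
      openZetaInv G F I * (L₂ I : PowerSeries ℤ) = L₁ I)
    (hI : ∀ I : Finset (Fin m), I.Nonempty → Splits ℓ (L₁ I) (L₂ I) (t I) (H I) ∧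
      NoCyclotomic ℓ (H I))
    (μ : Finset (Fin m) → ℕ) (hμ : ∀ I, μ I = ((t I).map Nat.totient).sum)
    (k' : Type) [Field k'] [Finite k'] [Algebra k k'] :
    (∀ v : Fin m → k'ˣ, newClasses χ V v ≤ ∑ j ∈ nonzero fun i => ℓ ^ a i, μ (supp j)) ∧
    ∑ᶠ v : Fin m → k'ˣ, (newClasses χ V v : ℚ) ≤ ((Nat.card k' - 1 : ℕ) : ℚ) ^ m *
      ∑ j ∈ nonzero fun i => ℓ ^ a i,
        (μ (supp j) : ℚ) / (orderOf fun i => χ i ^ (j i : ℕ) : ℕ) := by
  classical
  have hF : Fact ℓ.Prime := ⟨hℓ⟩
  have := Fintype.ofFinite (Fin m → k'ˣ)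
  have hr : 0 < finrank k k' := Module.finrank_pos
  have hodd : ¬ Odd 2 := by decide
  set φ : 𝓞 K →+* AlgebraicClosure K :=
    (algebraMap K (AlgebraicClosure K)).comp (algebraMap (𝓞 K) K) with hφd
  have hφ : Function.Injective φ :=
    (algebraMap K (AlgebraicClosure K)).injective.comp RingOfIntegers.coe_injective
  have hone : ∀ i, χ i ^ ℓ ^ a i = 1 := fun i => by rw [← hχ i, pow_orderOf_eq_one]
  -- the zeros
  have hgeo : ∀ j ∈ nonzero (fun i => ℓ ^ a i), Pool.Agent.H313.GE.geoO (Nat.card k)
      (((V j).map (algebraMap (𝓞 K) K)).map (algebraMap K (AlgebraicClosure K))) ≤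
        μ (supp j) := by
    intro j hj
    have hj' : (supp j).Nonempty := (Finset.mem_filter.1 hj).2
    obtain ⟨i, hi⟩ := hj'
    have hai : a i ≠ 0 := by
      intro h1
      have h2 := (j i).2
      have h3 : (j i : ℕ) ≠ 0 := (Finset.mem_filter.1 hi).2
      have h4 : ℓ ^ a i = 1 := by rw [h1, pow_zero]
      omega
    have hdk : ℓ ∣ Nat.card k - 1 :=
      (dvd_pow_self ℓ hai).trans (Pool.Agent.TH639.CK.card_dvd (hχ i))
    have hk1 : (Nat.card k : ZMod ℓ) = 1 := by
      have h1 : 1 ≤ Nat.card k := Nat.card_pos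
      have h2 : ((Nat.card k - 1 : ℕ) : ZMod ℓ) = 0 := (ZMod.natCast_eq_zero_iff _ _).2 hdk
      rw [Nat.cast_sub h1, Nat.cast_one, sub_eq_zero] at h2
      exact h2
    have hj'' : (supp j).Nonempty := ⟨i, hi⟩
    rw [hμ]
    refine kummer_geo G F (fun i => χ i ^ (j i : ℕ)) (supp j) a ?_ (n := 2)
      ⟨fun _ => hV j hj'', fun h => absurd h hodd⟩ (L₁ := L₁ (supp j)) (L₂ := L₂ (supp j))
      ⟨(hL _ hj'').1, fun _ => (hL _ hj'').2, fun h => absurd h hodd⟩ (hI _ hj'').1
      (hI _ hj'').2 Nat.card_pos.ne' hk1 _
    intro i _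
    rw [← pow_mul, mul_comm, pow_mul, hone i, one_pow]
  -- the order of the values
  set e : ℕ := ∏ i, ℓ ^ a i with he
  have he0 : 0 < e := Finset.prod_pos fun i _ => pow_pos hℓ.pos _
  have hψe : ∀ j : (∀ i, Fin (ℓ ^ a i)), (fun i => χ i ^ (j i : ℕ)) ^ e = 1 := by
    intro j
    funext i
    rw [Pi.pow_apply, Pi.one_apply]
    obtain ⟨d, hd⟩ := Finset.dvd_prod_of_mem (fun i => ℓ ^ a i) (Finset.mem_univ i)
    rw [he, hd, ← pow_mul, mul_comm (j i : ℕ), mul_assoc, pow_mul, hone i, one_pow]
  have hnew : ∀ v : Fin m → k'ˣ, newClasses χ V v = ∑ j ∈ nonzero fun i => ℓ ^ a i,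
      Multiset.card ((((V j).map (algebraMap (𝓞 K) K)).map
        (algebraMap K (AlgebraicClosure K))).roots.filter fun x =>
          ((Nat.card k : AlgebraicClosure K) * x) ^ finrank k k' =
            φ (∏ i, (χ i ^ (j i : ℕ)) (Algebra.norm k (v i : k')))) := fun v => rfl
  refine ⟨?_, ?_⟩
  · intro v
    rw [hnew]
    refine Finset.sum_le_sum fun j hj => ?_
    refine le_trans ?_ (hgeo j hj)
    unfold Pool.Agent.H313.GE.geoO
    apply Multiset.card_le_card
    apply Multiset.monotone_filter_right
    intro x hx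
    refine ⟨finrank k k' * e, Nat.mul_pos hr he0, ?_⟩
    rw [pow_mul, hx, ← map_pow, Pool.Agent.H313.GE.value_root _ he0 (hψe j) k' v, map_one]
  · rw [finsum_eq_sum_of_fintype]
    have h1 : ∑ v : Fin m → k'ˣ, (newClasses χ V v : ℚ) = ∑ j ∈ nonzero fun i => ℓ ^ a i,
        ((∑ v : Fin m → k'ˣ, Multiset.card ((((V j).map (algebraMap (𝓞 K) K)).map
        (algebraMap K (AlgebraicClosure K))).roots.filter fun x =>
          ((Nat.card k : AlgebraicClosure K) * x) ^ finrank k k' =
            φ (∏ i, (χ i ^ (j i : ℕ)) (Algebra.norm k (v i : k')))) : ℕ) : ℚ) := by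
      rw [← Nat.cast_sum, ← Nat.cast_sum, Finset.sum_comm]
      rfl
    rw [h1, Finset.mul_sum]
    refine Finset.sum_le_sum fun j hj => ?_
    have h2 := (Pool.Agent.H313.GE.sum_multi φ hφ (fun i => χ i ^ (j i : ℕ)) he0 (hψe j) k'
      ((((V j).map (algebraMap (𝓞 K) K)).map (algebraMap K (AlgebraicClosure K))).roots)
      (Nat.card k) (finrank k k') hr).trans (Nat.mul_le_mul_left _ (hgeo j hj))
    have h3 : 0 < orderOf (fun i => χ i ^ (j i : ℕ)) :=
      orderOf_pos_iff.2 (isOfFinOrder_iff_pow_eq_one.2 ⟨e, he0, hψe j⟩)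
    rw [← mul_div_assoc, le_div_iff₀ (by exact_mod_cast h3)]
    exact_mod_cast h2

end Pool.Agent.Results.MP_8ac872_ag.AbelianCoveringsTwists
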