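import Pool.Agent.X261.RO.Cert

/-!
Twists of constant positive rank in the Kummer towers: the Tate conjecture at `p`, the Tate-Shafarevich
group and the Mordell-Weil group. The definitions of the Jacobian, of the statement of the Tate
conjecture and of the triviality of the Tate-Shafarevich group are in `Pool.Agent.Y160.SL.Jac`,
`IsBasisAt` is in `Pool.Agent.Y160.SL.Fam`.
-/

set_option autoImplicit false

open Polynomial IsDedekindDomain
open scoped Classical

namespace Pool.Agent.Results.MP_8ac872_ag.RankInKummerTowers

open Pool.Agent.TH115.GD (IsTower)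
open Pool.Agent.Y160.SL (Jac TateAt ShaTriv IsBasisAt)

section defs

variable {k : Type} [Field k]

/-- The polynomial `D(t ^ N) ^ n (f(x / D(t ^ N)) - t ^ N)` in `x` over `K = k(t)`, where `n` is the degree
of `f`. The curve `w ^ q = D(t ^ N) ^ n (f(x / D(t ^ N)) - t ^ N)` over `K` is the base change of the
curve `w ^ q = D ^ n (f(x / D) - t)` to the field `k(t ^ (1 / N))`. -/
noncomputable def kummerTwist (K : Type) [Field K] [Algebra k[X] K] (f D : k[X]) (N : ℕ) : K[X] :=
  ((f.map C - C (X ^ N) : k[X][X]).scaleRoots (expand k N D)).map (algebraMap k[X] K)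

/-- The prime `P(t) = f(c(t)) - t` has exactly two primes above it in the curve `f(x) = t`: `P` is
irreducible, and `P(f(t))` is the product of `c(f(t)) - t` and an irreducible polynomial. -/
def IsMixedLine (f c : k[X]) : Prop :=
  Irreducible (f.comp c - X) ∧
    ∃ B : k[X], Irreducible B ∧ (f.comp c - X).comp f = (c.comp f - X) * B

/-- The polynomial `f` is monic of degree greater than two, irreducible and separable; `c` is monic and
not constant; `(f, c)` is as in `IsMixedLine`; and `f(c(0))`, the constant coefficient of `P`, is not a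
`p`-th power. -/
structure IsKummerPair (p : ℕ) (f c : k[X]) : Prop where
  monic : f.Monic
  degree : 2 < f.natDegree
  irreducible : Irreducible f
  separable : f.Separable
  monic' : c.Monic
  pos : 0 < c.natDegree
  mixed : IsMixedLine f c
  noPower : ∀ v : k, f.eval (c.eval 0) ≠ v ^ p

/-- The conclusions: the Tate conjecture at `p` for the surface `w ^ q = F(x)` over the projective line,
`Ш(J / K)[p ^ ∞] = 0` for the Jacobian `J` of its generic fibre over `K`, and a basis of `J(K)` at `p`
with `q - 1` elements. -/
def Holds (p q : ℕ) (k k' F : Type) {K : Type} [Field k] [Field k'] [Field K] [Field F]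
    [Algebra K F] [Algebra k[X] K] [IsFractionRing k[X] K] [Algebra k'[X] F]
    [IsFractionRing k'[X] F] (G : K[X]) : Prop :=
  TateAt (F := F) p q k' G ∧ ShaTriv p q k[X] G ∧
    ∃ b : Fin (q - 1) → Jac q G K, IsBasisAt p b

end defs

theorem holds_of {k k' K F : Type} [Field k] [Field k'] [Field K] [Field F] [Algebra K F]
    [Algebra k[X] K] [IsFractionRing k[X] K] [Algebra k'[X] F] [IsFractionRing k'[X] F] {p q : ℕ}
    {G : K[X]} (h : Pool.Agent.Y160.SL.Concl p q 1 k k' F G) :
    Holds p q k k' F G := by
  obtain ⟨D, hD1, hD2⟩ := h.basis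
  let e : Fin (q - 1) ≃ Fin 1 × Fin (q - 1) := (Equiv.uniqueProd (Fin (q - 1)) (Fin 1)).symm
  refine ⟨h.tate, h.sha, fun i => D (e i), hD1.comp _ e.injective, fun n x => ?_⟩
  obtain ⟨y, hy⟩ := hD2 n x
  refine ⟨y, ?_⟩
  have e1 : Set.range (fun i => D (e i)) = Set.range D := e.surjective.range_comp D
  rw [e1]
  exact hy

/-- **Constant rank `q - 1` in the Kummer towers.** Let `p` be a prime number and `q = p ^ (s + 1)`.

1. Let `k` be a field and `(f, c)` a pair as in `IsKummerPair`, with `p` not dividing `n (n - 1)`, where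
`n` is the degree of `f`. Let `k' / k` be a finite extension of degree prime to `p`, `n`, `n - 1` and the
degree of `c`, with the `q`-th roots of unity in `k'`; `kb` is a separable closure of `k'`, `K = k'(t)` and
`F = kb(t)`. Let `P = f(c(t)) - t`, `q ∣ n j + 1` and `D = P ^ j`. Then for all `b`, for the surface
`w ^ q = D(t ^ N) ^ n (f(x / D(t ^ N)) - t ^ N)`, `N = p ^ b`, the Tate conjecture at `p` holds over `k'`,
and `Ш(J / K)[p ^ ∞] = 0` and `J(K)` has a basis at `p` with `q - 1` elements, for the Jacobian `J` of its
generic fibre. So the Jacobian of `w ^ q = D ^ n (f(x / D) - t)` has the rank `q - 1` over all the fields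
`k'(t ^ (1 / p ^ b))`, if these groups are finitely generated.

2. The pair `f = x ^ 3 + 8 x + 5`, `c = t + 4` over the field with eleven elements is as in `IsKummerPair`
for `p = 5`. So there is a sequence of surfaces over this field, with five, twenty-five, ... times
as many bad fibres, for which the rank is four and the Tate conjecture holds at `5`. -/
theorem result (p s : ℕ) (hp : p.Prime) :
    (∀ (k : Type) [Field k] (f c : k[X]), IsKummerPair p f c →
      p.Coprime (f.natDegree * (f.natDegree - 1)) →
      ∀ (k' kb K F : Type) [Field k'] [Algebra k k'] [FiniteDimensional k k'] [Field kb]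
        [Algebra k' kb] [Field K] [Algebra k'[X] K] [IsFractionRing k'[X] K] [Field F]
        [Algebra kb[X] F] [IsFractionRing kb[X] F] [Algebra K F], IsTower k' kb K F →
        (Module.finrank k k').Coprime (p * (f.natDegree * (f.natDegree - 1) * c.natDegree)) →
        ∀ ζ : k', IsPrimitiveRoot ζ (p ^ (s + 1)) →
        ∀ j : ℕ, p ^ (s + 1) ∣ f.natDegree * j + 1 → ∀ b : ℕ,
          Holds p (p ^ (s + 1)) k' kb F (kummerTwist K (f.map (algebraMap k k'))
            (((f.comp c - X) ^ j).map (algebraMap k k')) (p ^ b))) ∧
    IsKummerPair 5 (X ^ 3 + C 8 * X + C 5 : (ZMod 11)[X]) (X + C 4) := by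
  refine ⟨?_, ?_⟩
  · intro k _ f c h hpn k' kb K F _ _ _ _ _ _ _ _ _ _ _ _ hT hd ζ hζ j hj b
    have hd1 : (Module.finrank k k').Coprime p := Nat.Coprime.coprime_mul_right_right hd
    have hd2 := Nat.Coprime.coprime_mul_left_right hd
    have hd3 : (Module.finrank k k').Coprime f.natDegree :=
      Nat.Coprime.coprime_mul_right_right (Nat.Coprime.coprime_mul_right_right hd2)
    have h' := Pool.Agent.X261.RO.pair_map (k' := k') h.degree h.pos h.mixed hd2
    have hnat : (f.map (algebraMap k k')).natDegree = f.natDegree := h.monic.natDegree_map _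
    have hcn : (c.map (algebraMap k k')).natDegree = c.natDegree := h.monic'.natDegree_map _
    have hpow : ∀ v : k', (f.map (algebraMap k k')).eval ((c.map (algebraMap k k')).eval 0) ≠
        v ^ p := by
      intro v
      have e1 : (f.map (algebraMap k k')).eval ((c.map (algebraMap k k')).eval 0) =
          algebraMap k k' (f.eval (c.eval 0)) := by
        rw [eval_zero_map, eval_map_apply]
      rw [e1]
      exact Pool.Agent.X261.RO.not_pow_ext hp hd1 h.noPower v
    have h1 := Pool.Agent.X261.RO.kumP hT hp hζ (h.monic.map _) (by rw [hnat]; exact h.degree)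
      (Pool.Agent.X261.AA.irr_of_coprime h.irreducible hd3) h.separable.map (by rwa [hnat])
      (h.monic'.map _) (by rw [hcn]; exact h.pos) h' hpow (j := j) (by rwa [hnat]) b
    have e : expand k' (p ^ b) (((f.comp c - X) ^ j).map (algebraMap k k')) =
        (expand k' (p ^ b) ((f.map (algebraMap k k')).comp (c.map (algebraMap k k')) - X)) ^ j := by
      rw [Polynomial.map_pow, Polynomial.map_sub, map_comp, map_X, map_pow]
    unfold kummerTwist
    rw [e]
    exact holds_of h1
  · exact ⟨Pool.Agent.X261.RO.Ce.fN_monic, by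
      show 2 < Pool.Agent.X261.RO.Ce.fN.natDegree
      rw [Pool.Agent.X261.RO.Ce.fN_deg]
      norm_num, Pool.Agent.X261.RO.Ce.fN_irr,
      PerfectField.separable_of_irreducible Pool.Agent.X261.RO.Ce.fN_irr, Pool.Agent.X261.RO.Ce.cN_monic, by
      show 0 < Pool.Agent.X261.RO.Ce.cN.natDegree
      rw [Pool.Agent.X261.RO.Ce.cN_deg]
      norm_num, Pool.Agent.X261.RO.Ce.pairN, Pool.Agent.X261.RO.Ce.powN⟩

end Pool.Agent.Results.MP_8ac872_ag.RankInKummerTowers
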