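import Pool.Agent.X261.MS.Ex

/-!
Twists of superelliptic curves over `k(t)` whose Jacobian has rank exactly `m (q - 1)`. The definitions of
the Jacobian, of the statement of the Tate conjecture and of the triviality of the Tate-Shafarevich group
are in `Pool.Agent.Y160.SL.Jac`, `IsBasisAt` is in `Pool.Agent.Y160.SL.Fam`.
-/

set_option autoImplicit false

open Polynomial IsDedekindDomain
open scoped Classical

namespace Pool.Agent.Results.MP_8ac872_ag.SeveralSections

open Pool.Agent.TH115.GD (IsTower)
open Pool.Agent.Y160.SL (Jac TateAt ShaTriv IsBasisAt)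

section defs

variable {k : Type} [Field k]

/-- The polynomial `f` in `x` over `k[t]` defines a smooth, absolutely irreducible affine plane curve
whose coordinate ring `R = k[t, x] / (f)` has no units besides the constants and no ideal classes of
order `p` (if the `p`-th power of an ideal is principal, the ideal is principal); `f` is monic in `x`, of
degree prime to `p`, and its derivative with respect to `x` is not zero. -/
structure IsBranchCurve (p : ℕ) (f : k[X][X]) : Prop where
  monic : f.Monic
  coprime : p.Coprime f.natDegree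
  irreducible : ∀ (k' : Type) [Field k'] [Algebra k k'],
    Irreducible (f.map (mapRingHom (algebraMap k k')))
  derivative_ne_zero : derivative f ≠ 0
  smooth : Ideal.span {f, derivative f, f.sum fun i a => C (derivative a) * X ^ i} = ⊤
  dedekind : IsDedekindDomain (AdjoinRoot f)
  ideals : ∀ I : Ideal (AdjoinRoot f), (I ^ p).IsPrincipal → I.IsPrincipal
  units : ∀ u : (AdjoinRoot f)ˣ, ∃ c : k, (u : AdjoinRoot f) = algebraMap k (AdjoinRoot f) c

/-- The prime `P` of `k[t]` has exactly `m + 1` primes above it in the curve `f(x, t) = 0`, and `m` of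
them are on the curves `x = c_i(t)`: `P = f(c_i(t), t)` for all `i`, and modulo `P` the polynomial `f` in
`x` is the product of the different `x - c_i` and of a polynomial which is irreducible over the field
`k[t] / (P)`. -/
structure IsSections (f : k[X][X]) {m : ℕ} (c : Fin m → k[X]) (P : k[X]) : Prop where
  irreducible : Irreducible P
  eval : ∀ i, f.eval (c i) = P
  distinct : ∀ i i', i ≠ i' → ¬ P ∣ c i' - c i
  cofactor : ∃ g : (AdjoinRoot P)[X], Irreducible g ∧
    f.map (AdjoinRoot.mk P) = (∏ i, (X - C (AdjoinRoot.mk P (c i)))) * g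

/-- The polynomial `D ^ n f(x / D, t)` in `x` over `K = k(t)`, where `n` is the degree of `f` in `x`. The
surface `w ^ q = D ^ n f(x / D, t)` is the twist of `w ^ q = f(x, t)` by `D(t) ^ n`. -/
noncomputable def twist (K : Type) [Field K] [Algebra k[X] K] (f : k[X][X]) (D : k[X]) : K[X] :=
  (f.scaleRoots D).map (algebraMap k[X] K)

/-- The conclusions: the Tate conjecture at `p` for the surface `w ^ q = G(x)` over the projective line,
`Ш(J / K)[p ^ ∞] = 0` for the Jacobian `J` of its generic fibre over `K`, and a basis of `J(K)` at `p`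
with `r (q - 1)` elements. -/
def Holds (p q r : ℕ) (k k' F : Type) {K : Type} [Field k] [Field k'] [Field K] [Field F]
    [Algebra K F] [Algebra k[X] K] [IsFractionRing k[X] K] [Algebra k'[X] F]
    [IsFractionRing k'[X] F] (G : K[X]) : Prop :=
  TateAt (F := F) p q k' G ∧ ShaTriv p q k[X] G ∧
    ∃ b : Fin (r * (q - 1)) → Jac q G K, IsBasisAt p b

/-- The curve `x ^ (2 m) + α x ^ m = t`. -/
noncomputable def curve (m : ℕ) (α : k) : k[X][X] := X ^ (2 * m) + C (C α) * X ^ m - C X

/-- The polynomial `P(t) = (t + β) ^ (2 m) + α (t + β) ^ m - t`. -/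
noncomputable def prm (m : ℕ) (α β : k) : k[X] := (X + C β) ^ (2 * m) + C α * (X + C β) ^ m - X

/-- The polynomials `c_i(t) = ξ ^ i (t + β)` for `i < m`. -/
noncomputable def sec (m : ℕ) (ξ β : k) (i : Fin m) : k[X] := C (ξ ^ (i : ℕ)) * (X + C β)

/-- `ξ` is a primitive `m`-th root of unity, `α ≠ 0`, the polynomial `P` is irreducible, and the element
`β ^ m + α` of `k` is not an `l`-th power for the primes `l` dividing `m`. -/
structure IsGood (m : ℕ) (α β ξ : k) : Prop where
  one_lt : 1 < m
  root : IsPrimitiveRoot ξ m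
  ne_zero : α ≠ 0
  irreducible : Irreducible (prm m α β)
  not_pow : ∀ l : ℕ, l.Prime → l ∣ m → ∀ v : k, β ^ m + α ≠ v ^ l

end defs

theorem holds_of {k k' K F : Type} [Field k] [Field k'] [Field K] [Field F] [Algebra K F]
    [Algebra k[X] K] [IsFractionRing k[X] K] [Algebra k'[X] F] [IsFractionRing k'[X] F]
    {p q r : ℕ} {G : K[X]} (h : Pool.Agent.Y160.SL.Concl p q r k k' F G) :
    Holds p q r k k' F G := by
  obtain ⟨D, hD1, hD2⟩ := h.basis
  let e : Fin (r * (q - 1)) ≃ Fin r × Fin (q - 1) := finProdFinEquiv.symm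
  refine ⟨h.tate, h.sha, fun i => D (e i), hD1.comp _ e.injective, fun n x => ?_⟩
  obtain ⟨y, hy⟩ := hD2 n x
  refine ⟨y, ?_⟩
  have e1 : Set.range (fun i => D (e i)) = Set.range D := e.surjective.range_comp D
  rw [e1]
  exact hy

theorem ring_of {k : Type} [Field k] {p : ℕ} (hp : p.Prime) {f : k[X][X]}
    (h : IsBranchCurve p f) : ∃ _ : IsDedekindDomain (AdjoinRoot f),
      Pool.Agent.Y160.T7.PropT p k (AdjoinRoot f) :=
  ⟨h.dedekind, by
    let := h.dedekind
    exact Pool.Agent.X261.BC.propT_of_class hp.pos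
      (Pool.Agent.X261.BC.class_of_ideal h.ideals) h.units⟩

theorem curve_eq {k : Type} [Field k] (m : ℕ) (α : k) :
    curve m α = Pool.Agent.X261.TS.graph (Pool.Agent.X261.MS.f0 m α) := by
  unfold curve Pool.Agent.X261.TS.graph Pool.Agent.X261.MS.f0
  rw [Polynomial.map_add, Polynomial.map_mul, Polynomial.map_pow, Polynomial.map_pow, map_X, map_C]

theorem branch_of {k : Type} [Field k] {p m : ℕ} (hcop : p.Coprime (2 * m)) {α β ξ : k}
    (h : IsGood m α β ξ) : IsBranchCurve p (curve m α) := by
  have hm : 0 < m := by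
    have := h.one_lt
    omega
  rw [curve_eq]
  obtain ⟨r1, r2, r3⟩ := Pool.Agent.X261.MS.graph_ring p (Pool.Agent.X261.MS.f0 m α)
  refine ⟨Pool.Agent.X261.TS.monic_graph (Pool.Agent.X261.MS.f0_monic hm)
    (by rw [Pool.Agent.X261.MS.f0_deg hm]; omega), ?_, ?_, ?_, ?_, r1, r2, r3⟩
  · rw [Pool.Agent.X261.TS.natDegree_graph, Pool.Agent.X261.MS.f0_deg hm]
    exact hcop
  · intro k' _ _
    rw [Pool.Agent.X261.MS.graph_map]
    exact Pool.Agent.X261.MS.graph_irr _
  · have h1 : derivative (Pool.Agent.X261.TS.graph (Pool.Agent.X261.MS.f0 m α)) =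
        (derivative (Pool.Agent.X261.MS.f0 m α)).map C := by
      unfold Pool.Agent.X261.TS.graph
      rw [derivative_sub, derivative_C, sub_zero, derivative_map]
    rw [h1, Polynomial.map_ne_zero_iff C_injective]
    have : NeZero m := ⟨hm.ne'⟩
    exact Pool.Agent.X261.MS.f0_der h.one_lt (h.root.neZero').out h.ne_zero
  · exact Pool.Agent.X261.MS.graph_smooth _

theorem sections_of {k : Type} [Field k] {m : ℕ} {α β ξ : k} (h : IsGood m α β ξ) :
    IsSections (curve m α) (sec m ξ β) (prm m α β) := by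
  have hm := h.one_lt
  refine ⟨h.irreducible, fun i => ?_, fun i i' hne => ?_, ?_⟩
  · rw [curve_eq]
    exact Pool.Agent.X261.MS.eval_cc h.root.pow_eq_one i
  · exact Pool.Agent.X261.MS.cc_ne hm h.root hne
  · refine ⟨Pool.Agent.X261.MS.gg m α β,
      Pool.Agent.X261.MS.gg_irr hm h.root h.irreducible h.not_pow, ?_⟩
    rw [curve_eq]
    exact Pool.Agent.X261.MS.mod_PP (by omega) h.root h.irreducible

/-- **Twists of rank exactly `m (q - 1)`.** Let `p` be a prime number and `q = p ^ (s + 1)`.

1. Let `k` be a field which contains the `q`-th roots of unity, `K = k(t)`, `kb` a separable closure of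
`k` and `F = kb(t)`. Let `f` be a branch curve of degree `n` in `x` as in `IsBranchCurve` and
`P = f(c_i(t), t)`, `i < m`, as in `IsSections`, with `m + 1 < n`, and `D = P ^ j` with `q ∣ n j + 1`. Then
for the curve `w ^ q = D ^ n f(x / D, t)` over `K` with the Jacobian `J` we have `Ш(J / K)[p ^ ∞] = 0`,
there is a basis of `J(K)` at `p` with `m (q - 1)` elements, so the rank of `J(K)` is `m (q - 1)`, and the
Tate conjecture at `p` holds over `k` for the surface of this equation.

2. If `p` does not divide `2 m` and `α`, `β`, `ξ` are as in `IsGood`, then `f = x ^ (2 m) + α x ^ m - t`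
is a branch curve with the `m` sections `c_i = ξ ^ i (t + β)` for `P = f(c_i(t), t)`.

3. This applies to all fields with `7 ^ r` elements, `r` odd, with `m = 2`, `f = x ^ 4 + x ^ 2 - t` and
`c_i = ±(t + 2)`.

4. It applies to the field `k0(α)` of rational functions over any field `k0` which contains the `m`-th
roots of unity, for all `m > 1` and all `β ≠ 0` in `k0`. -/
theorem result (p s : ℕ) (hp : p.Prime) :
    (∀ (k : Type) [Field k] (ζ : k), IsPrimitiveRoot ζ (p ^ (s + 1)) →
      ∀ f : k[X][X], IsBranchCurve p f → ∀ (m : ℕ) (c : Fin m → k[X]) (P : k[X]),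
      IsSections f c P → m + 1 < f.natDegree → ∀ j : ℕ, p ^ (s + 1) ∣ f.natDegree * j + 1 →
      ∀ (kb K F : Type) [Field kb] [Algebra k kb] [Field K] [Algebra k[X] K]
        [IsFractionRing k[X] K] [Field F] [Algebra kb[X] F] [IsFractionRing kb[X] F] [Algebra K F],
        IsTower k kb K F → Holds p (p ^ (s + 1)) m k kb F (twist K f (P ^ j))) ∧
    (∀ (k : Type) [Field k] (m : ℕ) (α β ξ : k), IsGood m α β ξ → p.Coprime (2 * m) →
      IsBranchCurve p (curve m α) ∧ IsSections (curve m α) (sec m ξ β) (prm m α β)) ∧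
    (∀ (k : Type) [Field k] [Finite k] (r : ℕ), Nat.card k = 7 ^ r → Odd r →
      IsGood 2 (1 : k) 2 (-1)) ∧
    (∀ (k₀ : Type) [Field k₀] (m : ℕ) (β ξ : k₀), 1 < m → IsPrimitiveRoot ξ m → β ≠ 0 →
      IsGood m (RatFunc.X : RatFunc k₀) (RatFunc.C β) (RatFunc.C ξ)) := by
  refine ⟨?_, ?_, ?_, ?_⟩
  · intro k _ ζ hζ f h m c P hS hn j hj kb K F _ _ _ _ _ _ _ _ _ hT
    obtain ⟨g, hgi, hg⟩ := hS.cofactor
    exact holds_of (Pool.Agent.X261.MS.mainS hT hp hζ h.monic h.coprime (h.irreducible kb)
      h.derivative_ne_zero h.smooth (ring_of hp h) hn hS.irreducible hS.eval hS.distinct hg hgi hj)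
  · intro k _ m α β ξ h hcop
    exact ⟨branch_of hcop h, sections_of h⟩
  · intro k _ _ r hr ho
    have := Pool.Agent.X261.MS.charP7 hr
    refine ⟨one_lt_two, IsPrimitiveRoot.neg_one 7 (by norm_num), one_ne_zero, ?_, ?_⟩
    · exact Pool.Agent.X261.MS.irr7 hr ho
    · intro l hl hl2 v
      have : l = 2 := (Nat.prime_dvd_prime_iff_eq hl Nat.prime_two).1 hl2
      subst this
      exact Pool.Agent.X261.MS.not_sq7 hr ho v
  · intro k₀ _ m β ξ hm hξ hβ
    refine ⟨hm, hξ.map_of_injective (RatFunc.C_injective), RatFunc.X_ne_zero, ?_, ?_⟩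
    · exact Pool.Agent.X261.MS.irr_rat (by omega) hβ
    · intro l hl _ v
      exact Pool.Agent.X261.MS.not_pow_rat hl v

end Pool.Agent.Results.MP_8ac872_ag.SeveralSections
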