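import Pool.Agent.X261.TS.Res

/-!
The Tate conjecture at `p` for the twists of the surfaces `w ^ q = f(x, t)` by products of inert primes,
where the curve `f = 0` is obtained from a line by changes of coordinates and `p`-th roots. The
definitions of the Jacobian and of the statement of the conjecture are in `Pool.Agent.Y160.SL.Jac`, the
class of curves is in `Pool.Agent.Y160.SL.Cls`.
-/

set_option autoImplicit false

open Polynomial IsDedekindDomain
open scoped Classical

namespace Pool.Agent.Results.MP_8ac872_ag.TwistedTowerSurfaces

open Pool.Agent.TH115.GD (IsTower)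
open Pool.Agent.Y160.SL (Jac TateAt IsTowerCurve)

section defs

variable {k : Type} [Field k]

/-- The polynomial `D ^ n f(x / D, t)` in `x` over `K = k(t)`, where `n` is the degree of `f` in `x`. The
surface `w ^ q = D ^ n f(x / D, t)` is the twist of `w ^ q = f(x, t)` by `D(t) ^ n`. -/
noncomputable def twist (K : Type) [Field K] [Algebra k[X] K] (f : k[X][X]) (D : k[X]) : K[X] :=
  (f.scaleRoots D).map (algebraMap k[X] K)

/-- All the prime factors `P(t)` of `D` are inert in the curve `f(x, t) = 0`: modulo `P` the polynomial
`f` in `x` is irreducible over the field `k[t] / (P)`. -/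
def IsInert (f : k[X][X]) (D : k[X]) : Prop :=
  D ≠ 0 ∧ ∀ P : k[X], Irreducible P → P ∣ D → Irreducible (f.map (AdjoinRoot.mk P))

/-- All the prime factors `P(t)` of `D` are inert in the curve `f(x) = t`: `P(f(x))` is irreducible over
`k`. -/
def IsInertLine (f D : k[X]) : Prop :=
  D ≠ 0 ∧ ∀ P : k[X], Irreducible P → P ∣ D → Irreducible (P.comp f)

/-- The Tate conjecture at `p` for the surface `w ^ q = F(x)` over the projective line, and
`J(K) = p ^ m J(K)` for all `m`, for the Jacobian `J` of its generic fibre over `K`. -/
def Holds (p q : ℕ) (k' F : Type) {K : Type} [Field k'] [Field K] [Field F] [Algebra K F]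
    [Algebra k'[X] F] [IsFractionRing k'[X] F] (G : K[X]) : Prop :=
  TateAt (F := F) p q k' G ∧ ∀ (m : ℕ) (x : Jac q G K), ∃ y : Jac q G K, x = p ^ m • y

end defs

/-- **The Tate conjecture at `p` for twists by products of inert primes.**

Let `p` be a prime number, `q = p ^ (s + 1)`, and `k` a field of characteristic different from `p` which
contains the `q`-th roots of unity, for instance a finite field; `k'` is a separable closure of `k`,
`K = k(t)` and `F = k'(t)`.

1. Let `f` be a polynomial in `x` and `t` which is obtained from `x` by the operations of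
`IsTowerCurve`, monic in `x` of degree `n` prime to `p`, separable over `K`, and `D ≠ 0` a polynomial in
`t` such that `f` is irreducible modulo every prime factor of `D`. Then the Tate conjecture at `p` holds
for the surface `w ^ q = D ^ n f(x / D, t)`, and `J(K) = p ^ m J(K)` for all `m`, for the Jacobian `J`
of the generic fibre.

2. The same holds for `f(x) - t` instead of `f`, for all monic polynomials `f` over `k` of degree prime
to `p` with `f' ≠ 0`, and all the products `D` of primes `P` such that `P(f(x))` is irreducible.

The surfaces have bad fibres at all the zeros of `D`, and their geometric genus tends to infinity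
with the degree of `D`. -/
theorem result (p s : ℕ) (hp : p.Prime) (k k' K F : Type) [Field k] [Field k'] [Algebra k k']
    [Field K] [Algebra k[X] K] [IsFractionRing k[X] K] [Field F] [Algebra k'[X] F]
    [IsFractionRing k'[X] F] [Algebra K F] (hT : IsTower k k' K F) (ζ : k)
    (hζ : IsPrimitiveRoot ζ (p ^ (s + 1))) :
    (∀ f : k[X][X], IsTowerCurve p f → f.Monic → p.Coprime f.natDegree →
      (f.map (algebraMap k[X] K)).Separable → ∀ D : k[X], IsInert f D →
        Holds p (p ^ (s + 1)) k' F (twist K f D)) ∧
    ∀ f : k[X], f.Monic → p.Coprime f.natDegree → derivative f ≠ 0 → ∀ D : k[X],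
      IsInertLine f D → Holds p (p ^ (s + 1)) k' F (twist K (f.map C - C X) D) := by
  refine ⟨fun f hf hmon hcop hsep D hD => ?_, fun f hmon hcop hder D hD => ?_⟩
  · have h := Pool.Agent.X261.TS.towerS hT hp hζ hf hmon hcop hsep hD.1 hD.2
    exact ⟨h.tate, Pool.Agent.X261.TS.divisible h.basis⟩
  · have h := Pool.Agent.X261.TS.lineS hT hp hζ hmon hcop hder hD.1 hD.2
    exact ⟨h.tate, Pool.Agent.X261.TS.divisible h.basis⟩

end Pool.Agent.Results.MP_8ac872_ag.TwistedTowerSurfaces
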